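import Mathlib

/-!
Extension of ring homomorphisms into algebraically closed fields along algebraic extensions
(Atiyah-Macdonald 5.23). Part `EXT` of project AL.
-/

set_option autoImplicit false

namespace Pool.Agent.X132.AL

open Finset Polynomial

universe u

noncomputable section

/-- an integral extension of domains: a ring homomorphism to an algebraically closed field extends -/
theorem extend_integral (A C : Type) [CommRing A] [CommRing C] [IsDomain C] [Algebra A C]
    [Algebra.IsIntegral A C] (hinj : Function.Injective (algebraMap A C))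
    (K : Type u) [Field K] [IsAlgClosed K] (ψ : A →+* K) :
    ∃ Ψ : C →+* K, ∀ a, Ψ (algebraMap A C a) = ψ a := by
  have hP : (RingHom.ker ψ).IsPrime := RingHom.ker_isPrime ψ
  obtain ⟨Q, hQ, hQP⟩ := Ideal.exists_ideal_over_prime_of_isIntegral_of_isDomain (S := C)
    (RingHom.ker ψ) (by
      rw [(RingHom.injective_iff_ker_eq_bot _).1 hinj]; exact bot_le)
  -- quotient rings
  let A' := A ⧸ RingHom.ker ψ
  let C' := C ⧸ Q
  let i : A' →+* C' := Ideal.quotientMap Q (algebraMap A C) (le_of_eq hQP.symm)
  have hi : Function.Injective i := Ideal.quotientMap_injective' (le_of_eq hQP)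
  let : Algebra A' C' := i.toAlgebra
  let : Algebra A' K := (Ideal.Quotient.lift (RingHom.ker ψ) ψ (fun a ha => ha)).toAlgebra
  have hj : Function.Injective (algebraMap A' K) := RingHom.kerLift_injective ψ
  have : IsDomain C' := Ideal.Quotient.isDomain Q
  have : IsDomain A' := Ideal.Quotient.isDomain _
  have : Module.IsTorsionFree A' C' := by
    rw [Module.isTorsionFree_iff_algebraMap_injective]
    exact hi
  have : Module.IsTorsionFree A' K := by
    rw [Module.isTorsionFree_iff_algebraMap_injective]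
    exact hj
  have : Algebra.IsIntegral A' C' := by
    refine ⟨fun x => ?_⟩
    obtain ⟨c, rfl⟩ := Ideal.Quotient.mk_surjective x
    obtain ⟨p, hp, hpc⟩ := Algebra.IsIntegral.isIntegral (R := A) c
    refine ⟨p.map (Ideal.Quotient.mk (RingHom.ker ψ)), hp.map _, ?_⟩
    rw [Polynomial.eval₂_map]
    have h1 : (algebraMap A' C').comp (Ideal.Quotient.mk (RingHom.ker ψ)) =
        (Ideal.Quotient.mk Q).comp (algebraMap A C) := by
      ext a
      rfl
    rw [h1, ← Polynomial.hom_eval₂, hpc, map_zero]
  let L : C' →ₐ[A'] K := IsAlgClosed.lift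
  refine ⟨(L : C' →+* K).comp (Ideal.Quotient.mk Q), fun a => ?_⟩
  have h2 : Ideal.Quotient.mk Q (algebraMap A C a) =
      algebraMap A' C' (Ideal.Quotient.mk (RingHom.ker ψ) a) := rfl
  rw [RingHom.comp_apply, h2]
  change L (algebraMap A' C' (Ideal.Quotient.mk (RingHom.ker ψ) a)) = ψ a
  rw [AlgHom.commutes]
  rfl

/-- **EXT** -/
theorem ext (R : Type) [CommRing R] [IsDomain R] (Ω : Type) [Field Ω] [Algebra R Ω]
    (hinj : Function.Injective (algebraMap R Ω)) (halg : ∀ y : Ω, IsAlgebraic R y)
    (s : Finset Ω) (v : Ω) (hv : v ≠ 0) (_hvs : v ∈ Algebra.adjoin R (s : Set Ω)) :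
    ∃ D : R, D ≠ 0 ∧ ∀ (K : Type u) [Field K] [IsAlgClosed K] (φ : R →+* K), φ D ≠ 0 →
      ∃ Φ : Algebra.adjoin R (s : Set Ω) →+* K,
        (∀ a : R, Φ (algebraMap R (Algebra.adjoin R (s : Set Ω)) a) = φ a) ∧
        ∀ b : Algebra.adjoin R (s : Set Ω), (b : Ω) = v → Φ b ≠ 0 := by
  classical
  have : Algebra.IsAlgebraic R Ω := ⟨halg⟩
  obtain ⟨D, hD, hDi⟩ := Algebra.IsAlgebraic.exists_integral_multiples R (insert v⁻¹ s)
  refine ⟨D, hD, ?_⟩
  intro K _ _ φ hφ
  let R' := Localization.Away D
  have hDu : ∀ y : Submonoid.powers D, IsUnit (algebraMap R Ω y) := by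
    rintro ⟨_, n, rfl⟩
    change IsUnit (algebraMap R Ω (D ^ n))
    rw [map_pow]
    refine IsUnit.pow n (IsUnit.mk0 _ ?_)
    rw [Ne, map_eq_zero_iff _ hinj]
    exact hD
  have hDφ : ∀ y : Submonoid.powers D, IsUnit (φ y) := by
    rintro ⟨_, n, rfl⟩
    change IsUnit (φ (D ^ n))
    rw [map_pow]
    exact IsUnit.pow n (IsUnit.mk0 _ hφ)
  let i : R' →+* Ω := IsLocalization.lift hDu
  let ψ : R' →+* K := IsLocalization.lift hDφ
  let : Algebra R' Ω := i.toAlgebra
  have : IsScalarTower R R' Ω := IsScalarTower.of_algebraMap_eq (fun x => by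
    change algebraMap R Ω x = i (algebraMap R R' x)
    rw [IsLocalization.lift_eq])
  have hi : Function.Injective i := by
    rw [IsLocalization.lift_injective_iff]
    intro x y
    constructor
    · intro h
      rw [(IsLocalization.injective R' (M := Submonoid.powers D)
        (powers_le_nonZeroDivisors_of_noZeroDivisors hD)).eq_iff] at h
      rw [h]
    · intro h
      rw [hinj h]
  let C := integralClosure R' Ω
  have hCi : Function.Injective (algebraMap R' C) := by
    intro x y h
    apply hi
    have := congrArg (Subtype.val) h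
    exact this
  obtain ⟨Ψ, hΨ⟩ := extend_integral R' C hCi K ψ
  have hint : ∀ x : Ω, IsIntegral R (D • x) → x ∈ C := by
    intro x hx
    have h1 : IsIntegral R' (D • x) := hx.tower_top
    have h2 : x = (IsLocalization.mk' R' (1 : R) (⟨D, Submonoid.mem_powers D⟩ :
        Submonoid.powers D)) • (D • x) := by
      rw [← algebraMap_smul R' D x, smul_smul]
      have h3 : (IsLocalization.mk' R' (1 : R) (⟨D, Submonoid.mem_powers D⟩ :
        Submonoid.powers D)) * algebraMap R R' D = 1 := by
        have := IsLocalization.mk'_spec R' (1 : R) (⟨D, Submonoid.mem_powers D⟩ :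
          Submonoid.powers D)
        simp at this ⊢
      rw [h3, one_smul]
    rw [h2]
    exact IsIntegral.smul _ h1
  have hs : ∀ x ∈ s, x ∈ C := fun x hx => hint x (hDi x (Finset.mem_insert_of_mem hx))
  have hvi : v⁻¹ ∈ C := hint _ (hDi _ (Finset.mem_insert_self _ _))
  have hle : Algebra.adjoin R (s : Set Ω) ≤ C.restrictScalars R := by
    refine Algebra.adjoin_le ?_
    intro x hx
    exact hs x hx
  let ι : Algebra.adjoin R (s : Set Ω) →+* C := (Subalgebra.inclusion hle : _ →ₐ[R] _).toRingHom
  refine ⟨Ψ.comp ι, ?_, ?_⟩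
  · intro a
    have h1 : ι (algebraMap R (Algebra.adjoin R (s : Set Ω)) a) =
        algebraMap R' C (algebraMap R R' a) := by
      apply Subtype.ext
      change algebraMap R Ω a = i (algebraMap R R' a)
      rw [IsLocalization.lift_eq]
    rw [RingHom.comp_apply, h1, hΨ]
    exact IsLocalization.lift_eq hDφ a
  · intro b hb h0
    have h1 : ι b * ⟨v⁻¹, hvi⟩ = 1 := by
      apply Subtype.ext
      change (b : Ω) * v⁻¹ = 1
      rw [hb, mul_inv_cancel₀ hv]
    have h2 := congrArg Ψ h1
    rw [map_mul, map_one] at h2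
    rw [RingHom.comp_apply] at h0
    rw [h0, zero_mul] at h2
    exact zero_ne_one h2

end

end Pool.Agent.X132.AL
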